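import Pool.Agent.H12R3.VR.Stmts

set_option autoImplicit false

open Filter Topology

namespace H583R3.VR

open H12VR

theorem inj_of_aut {f : ℝ → ℝ} {P : Fin 6 → ℝ} (h : Aut f P) :
    Function.Injective (fun y => ax P y (f y)) := by
  obtain ⟨hdt, hf, -⟩ := h
  intro y z hyz
  have h1 : ax P y (f y) = ax P z (f z) := hyz
  have h2 : ay P y (f y) = ay P z (f z) := by rw [← hf y, ← hf z, h1]
  unfold ax at h1
  unfold ay at h2
  have h3 : dt P * (y - z) = 0 := by
    unfold dt
    linear_combination P 4 * h1 - P 1 * h2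
  rcases mul_eq_zero.1 h3 with h4 | h4
  · exact absurd h4 hdt
  · linarith

theorem map_nhds {g : ℝ → ℝ} (hinj : Function.Injective g) {x δ : ℝ}
    (hc : ∀ y, |y - x| < δ → ContinuousAt g y) {y : ℝ} (hy : |y - x| < δ) :
    Filter.map g (𝓝 y) = 𝓝 (g y) := by
  apply le_antisymm (hc y hy)
  intro s hs
  rw [Filter.mem_map] at hs
  obtain ⟨ε, hε, hball⟩ := Metric.mem_nhds_iff.1 hs
  set η := min (ε / 2) ((δ - |y - x|) / 2) with hη
  have hη0 : 0 < η := by
    rw [hη]
    apply lt_min (by linarith)
    linarith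
  have hη1 : η ≤ ε / 2 := min_le_left _ _
  have hη2 : η ≤ (δ - |y - x|) / 2 := min_le_right _ _
  have hJ : ∀ z ∈ Set.Icc (y - η) (y + η), |z - x| < δ := by
    intro z hz
    have h1 : |z - y| ≤ η := abs_le.2 ⟨by linarith [hz.1], by linarith [hz.2]⟩
    have h2 : |z - x| ≤ |z - y| + |y - x| := by
      have := abs_add_le (z - y) (y - x)
      simpa using this
    have h3 : 0 < δ - |y - x| := by linarith
    linarith
  have hcont : ContinuousOn g (Set.Icc (y - η) (y + η)) := fun z hz =>
    (hc z (hJ z hz)).continuousWithinAt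
  have hsub : Set.Icc (y - η) (y + η) ⊆ g ⁻¹' s := by
    intro z hz
    apply hball
    rw [Metric.mem_ball, Real.dist_eq]
    have h1 : |z - y| ≤ η := abs_le.2 ⟨by linarith [hz.1], by linarith [hz.2]⟩
    linarith
  have hle : y - η ≤ y + η := by linarith
  have hyI : y ∈ Set.Icc (y - η) (y + η) := ⟨by linarith, by linarith⟩
  have haI : y - η ∈ Set.Icc (y - η) (y + η) := ⟨le_refl _, by linarith⟩
  have hbI : y + η ∈ Set.Icc (y - η) (y + η) := ⟨by linarith, le_refl _⟩
  rcases hcont.strictMonoOn_of_injOn_Icc' hle hinj.injOn with hm | hm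
  · have h1 : g (y - η) < g y := hm haI hyI (by linarith)
    have h2 : g y < g (y + η) := hm hyI hbI (by linarith)
    refine Filter.mem_of_superset (Icc_mem_nhds h1 h2) ?_
    intro w hw
    obtain ⟨z, hz, rfl⟩ := intermediate_value_Icc hle hcont hw
    exact hsub hz
  · have h1 : g y < g (y - η) := hm haI hyI (by linarith)
    have h2 : g (y + η) < g y := hm hyI hbI (by linarith)
    refine Filter.mem_of_superset (Icc_mem_nhds h2 h1) ?_
    intro w hw
    obtain ⟨z, hz, rfl⟩ := intermediate_value_Icc' hle hcont hw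
    exact hsub hz

theorem t : TaskAutD := by
  intro f P hA x hx
  have hinj := inj_of_aut hA
  obtain ⟨δ, hδ, h⟩ := Metric.eventually_nhds_iff.1 hx
  have hcf : ∀ y, |y - x| < δ → ContinuousAt f y := fun y hy => h (by rwa [Real.dist_eq])
  have hc : ∀ y, |y - x| < δ → ContinuousAt (fun y => ax P y (f y)) y := by
    intro y hy
    unfold ax
    have := hcf y hy
    fun_prop
  have hca : ∀ y, |y - x| < δ → ContinuousAt (fun y => ay P y (f y)) y := by
    intro y hy
    unfold ay
    have := hcf y hy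
    fun_prop
  have hxx : |x - x| < δ := by simpa using hδ
  have key : ∀ y, |y - x| < δ → ContinuousAt f (ax P y (f y)) := by
    intro y hy
    have h1 := map_nhds hinj hc hy
    unfold ContinuousAt
    rw [← h1, hA.2.1 y, Filter.tendsto_map'_iff]
    have h2 : (f ∘ fun y => ax P y (f y)) = fun y => ay P y (f y) := by
      funext z
      exact hA.2.1 z
    rw [h2]
    exact hca y hy
  show ∀ᶠ z in 𝓝 (ax P x (f x)), ContinuousAt f z
  have h1 := map_nhds hinj hc hxx
  rw [← h1, Filter.eventually_map]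
  rw [Metric.eventually_nhds_iff]
  exact ⟨δ, hδ, fun y hy => key y (by rwa [Real.dist_eq] at hy)⟩

end H583R3.VR
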